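import Pool.Agent.Helper161.Dlr.Base
import Pool.Agent.Helper161.Dlr.Core
import Pool.Agent.Helper292.ForceCH

/-!
# Products of compact spaces with spaces in Split(Λ,Λ) under the continuum hypothesis

The continuum hypothesis, which can be forced, yields a set of irrationals which satisfies
Split(Λ,Λ) while its product with the Cantor space does not.
-/

set_option autoImplicit false

open Set TopologicalSpace Cardinal

namespace Pool.Agent.Results.MP_ef395a_gt.ForcedIndependence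

open Pool.Agent.Helper161.Dlr.Base Pool.Agent.Helper161.Dlr

/-- If every sequence of open sets is split by one set of indices on `Y`, then `Y` satisfies
Split(Λ,Λ). -/
theorem split_of_splits {Y : Set (ℕ → ℕ)}
    (hY : ∀ Φ : ℕ → Set (List ℕ), ∃ X : Set ℕ, ∀ y ∈ Y, Splits Φ X y) : SplitLL Y := by
  classical
  intro 𝒰 h𝒰
  rcases isEmpty_or_nonempty Y with hemp | ⟨⟨y0⟩⟩
  · refine ⟨𝒰, ∅, by simp, by simp, h𝒰, ?_, ?_, fun z => (hemp.false z).elim⟩
    · simp
    · simp
  obtain ⟨𝒰', hsub, hcount, hlarge⟩ := exists_countable_large h𝒰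
  have hinf : 𝒰'.Infinite := (hlarge.2.2 y0).mono (fun U hU => hU.1)
  obtain ⟨U, hUinj, hUr⟩ : ∃ U : ℕ → Set Y, Function.Injective U ∧ Set.range U = 𝒰' := by
    have : Infinite 𝒰' := hinf.to_subtype
    have : Countable 𝒰' := hcount.to_subtype
    obtain ⟨e⟩ := nonempty_equiv_of_countable (α := ℕ) (β := 𝒰')
    refine ⟨fun n => (e n : Set Y), fun n m h => e.injective (Subtype.ext h), ?_⟩
    ext V
    constructor
    · rintro ⟨n, rfl⟩
      exact (e n).2
    · intro hV
      exact ⟨e.symm ⟨V, hV⟩, by simp⟩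
  have hUinf : ∀ z, {n | z ∈ U n}.Infinite := by
    intro z
    refine Set.Infinite.of_image U ((hlarge.2.2 z).mono ?_)
    rintro V ⟨hV, hz⟩
    obtain ⟨n, rfl⟩ : V ∈ Set.range U := hUr ▸ hV
    exact ⟨n, hz, rfl⟩
  have hUopen : ∀ n, IsOpen (U n) := fun n => hlarge.1 _ (hUr ▸ ⟨n, rfl⟩)
  let Φ : ℕ → Set (List ℕ) := fun n => {l | ∀ z : Y, pre z.1 l.length = l → z ∈ U n}
  have hΦ : ∀ (n : ℕ) (z : Y), Dn Φ n z.1 ↔ z ∈ U n := by
    intro n z
    constructor
    · rintro ⟨m, hm⟩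
      exact hm z (by rw [length_pre])
    · intro hz
      obtain ⟨V, hV, hVU⟩ := isOpen_induced_iff.1 (hUopen n)
      have hzV : z.1 ∈ V := by
        have : z ∈ Subtype.val ⁻¹' V := by rw [hVU]; exact hz
        exact this
      obtain ⟨I, u, hIu, hIV⟩ := isOpen_pi_iff.1 hV z.1 hzV
      refine ⟨I.sup id + 1, ?_⟩
      intro w hw
      rw [length_pre] at hw
      have hw' := pre_eq_iff.1 hw
      rw [← hVU]
      show w.1 ∈ V
      apply hIV
      intro i hi
      have hi2 : i < I.sup id + 1 := Nat.lt_succ_of_le (Finset.le_sup (f := id) hi)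
      show w.1 i ∈ u i
      rw [hw' i hi2]
      exact (hIu i hi).2
  obtain ⟨S, hS⟩ := hY Φ
  have hS2 : ∀ y : Y, ({n | y ∈ U n} ∩ S).Infinite ∧ ({n | y ∈ U n} \ S).Infinite := by
    intro y
    have he : {n | Dn Φ n y.1} = {n | y ∈ U n} := by ext n; exact hΦ n y
    rcases hS y.1 y.2 with h | h
    · rw [he] at h
      exact absurd h (hUinf y)
    · rwa [he] at h
  refine ⟨U '' S, 𝒰 \ (U '' S), ?_, disjoint_sdiff_right, ?_, ?_⟩
  · refine union_sdiff_cancel ?_
    rintro _ ⟨n, _, rfl⟩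
    exact hsub (hUr ▸ ⟨n, rfl⟩)
  · refine ⟨?_, ?_, ?_⟩
    · rintro _ ⟨n, _, rfl⟩
      exact hlarge.1 _ (hUr ▸ ⟨n, rfl⟩)
    · rintro ⟨n, _, hn⟩
      exact hlarge.2.1 (hUr ▸ ⟨n, hn⟩)
    · intro y
      refine ((hS2 y).1.image hUinj.injOn).mono ?_
      rintro _ ⟨n, ⟨hn1, hn2⟩, rfl⟩
      exact ⟨⟨n, hn2, rfl⟩, hn1⟩
  · refine ⟨fun V hV => h𝒰.1 V hV.1, fun h => h𝒰.2.1 h.1, fun y => ?_⟩
    refine ((hS2 y).2.image hUinj.injOn).mono ?_
    rintro _ ⟨n, ⟨hn1, hn2⟩, rfl⟩
    refine ⟨⟨hsub (hUr ▸ ⟨n, rfl⟩), ?_⟩, hn1⟩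
    rintro ⟨n', hn', hnn'⟩
    exact hn2 (hUinj hnn' ▸ hn')

/-- Under the continuum hypothesis some set of functions satisfies Split(Λ,Λ) without being
Menger, and its product with the Cantor space does not satisfy Split(Λ,Λ). -/
theorem exists_of_ch (hCH : Cardinal.aleph 1 = Cardinal.continuum.{0}) :
    ∃ Y : Set (ℕ → ℕ), SplitLL Y ∧ ¬ Menger Y ∧ ¬ SplitLL ((ℕ → Bool) × Y) := by
  obtain ⟨Y, hY1, hY2⟩ := exists_space hCH
  have hM : ¬ Menger Y := by
    refine not_menger_of_dominating fun g => ?_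
    obtain ⟨y, hy, hgy⟩ := hY1 (fun n => g n + 1)
    exact ⟨y, hy, fun n => hgy n⟩
  exact ⟨Y, split_of_splits hY2, hM, not_split_of_not_menger hM⟩

/-- (1) Some forcing notion forces the continuum hypothesis. (2) The continuum hypothesis gives
a set `Y` of irrationals which satisfies Split(Λ,Λ) while its product with the Cantor space does
not. (3) Hence under the continuum hypothesis the answer to the question is negative. (4) The answer
is also negative if `d < r`. (5) The answer is positive if `u < g`. -/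
theorem result :
    (∃ (P : Type) (_ : Preorder P), Nonempty P ∧ ∀ p : P,
      p ∈ Pool.Agent.Helper292.ForceCH.OmegaOnePreserved P ∧
      p ∈ Pool.Agent.Helper292.ForceCH.CHHolds P) ∧
    (Cardinal.aleph 1 = Cardinal.continuum.{0} →
      ∃ Y : Set (ℕ → ℕ), SplitLL Y ∧ ¬ Menger Y ∧ ¬ SplitLL ((ℕ → Bool) × Y)) ∧
    (Cardinal.aleph 1 = Cardinal.continuum.{0} → ¬ QuestionOne) ∧
    (dominatingNumber < reapingNumber → ¬ QuestionOne) ∧
    (ultrafilterNumber < groupwiseDensityNumber → QuestionOne) := by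
  refine ⟨?_, exists_of_ch, ?_, cardinal_cases.1, cardinal_cases.2⟩
  · obtain ⟨P, i, h1, h2⟩ := Pool.Agent.Helper292.ForceCH.exists_forcing
    exact ⟨P, i, h1, fun p => ⟨(h2 p).1, (h2 p).2.2⟩⟩
  · intro hCH hQ
    obtain ⟨Y, hY, _, hn⟩ := exists_of_ch hCH
    exact hn (hQ (ℕ → Bool) Y hY)

end Pool.Agent.Results.MP_ef395a_gt.ForcedIndependence
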