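import Mathlib

set_option autoImplicit false

open Set TopologicalSpace

namespace Pool.Agent.Results.MP_ef395a_gt.MengerChar

/-- A large open cover of `Z`: a family of open subsets of `Z`, not containing `Z` itself, such
that every point of `Z` lies in infinitely many members of the family. -/
def IsLargeCover {Z : Type*} [TopologicalSpace Z] (𝒰 : Set (Set Z)) : Prop :=
  (∀ U ∈ 𝒰, IsOpen U) ∧ Set.univ ∉ 𝒰 ∧ ∀ z : Z, {U ∈ 𝒰 | z ∈ U}.Infinite

/-- The property Split(Λ,Λ): every large open cover is the union of two disjoint subfamilies, each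
of which is itself a large open cover. -/
def SplitLL (Z : Type*) [TopologicalSpace Z] : Prop :=
  ∀ 𝒰 : Set (Set Z), IsLargeCover 𝒰 →
    ∃ 𝒱 𝒲 : Set (Set Z), 𝒱 ∪ 𝒲 = 𝒰 ∧ Disjoint 𝒱 𝒲 ∧ IsLargeCover 𝒱 ∧ IsLargeCover 𝒲

/-- The Menger property: for every sequence of open covers there are finite subfamilies of the
members of the sequence which together cover the space. -/
def Menger (Y : Type*) [TopologicalSpace Y] : Prop :=
  ∀ 𝒰 : ℕ → Set (Set Y), (∀ n, (∀ U ∈ 𝒰 n, IsOpen U) ∧ ⋃₀ 𝒰 n = Set.univ) →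
    ∃ ℱ : ℕ → Set (Set Y), (∀ n, ℱ n ⊆ 𝒰 n ∧ (ℱ n).Finite) ∧ ⋃ n, ⋃₀ ℱ n = Set.univ

theorem finite_subset_of_mono {α : Type*} {W : ℕ → Set α} (hW : Monotone W) {S : Set α}
    (hS : S.Finite) (h : S ⊆ ⋃ n, W n) : ∃ n, S ⊆ W n := by
  induction S, hS using Set.Finite.induction_on with
  | empty => exact ⟨0, empty_subset _⟩
  | @insert a S _ _ ih =>
    obtain ⟨n, hn⟩ := ih ((subset_insert a S).trans h)
    obtain ⟨m, hm⟩ := mem_iUnion.1 (h (mem_insert a S))
    refine ⟨max n m, insert_subset (hW (le_max_right _ _) hm) (hn.trans (hW (le_max_left _ _)))⟩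

/-- In a second countable space every large open cover contains a countable one. -/
theorem exists_countable_large {Z : Type*} [TopologicalSpace Z] [SecondCountableTopology Z]
    {𝒰 : Set (Set Z)} (hU : IsLargeCover 𝒰) :
    ∃ 𝒱 : Set (Set Z), 𝒱 ⊆ 𝒰 ∧ 𝒱.Countable ∧ IsLargeCover 𝒱 := by
  classical
  obtain ⟨hopen, huniv, hinf⟩ := hU
  have key : ∀ S : Set (Set Z), ∃ T : Set (Set Z), S ⊆ 𝒰 → (T.Countable ∧ T ⊆ S ∧ ⋃₀ T = ⋃₀ S) := by
    intro S
    by_cases hS : S ⊆ 𝒰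
    · obtain ⟨T, hT1, hT2, hT3⟩ := TopologicalSpace.isOpen_sUnion_countable S
        (fun s hs => hopen s (hS hs))
      exact ⟨T, fun _ => ⟨hT1, hT2, hT3⟩⟩
    · exact ⟨∅, fun h => absurd h hS⟩
  choose T hT using key
  let W : ℕ → Set (Set Z) := fun n => Nat.rec ∅ (fun _ w => w ∪ T (𝒰 \ w)) n
  have hW0 : W 0 = ∅ := rfl
  have hWs : ∀ n, W (n + 1) = W n ∪ T (𝒰 \ W n) := fun n => rfl
  have hT' : ∀ n, (T (𝒰 \ W n)).Countable ∧ T (𝒰 \ W n) ⊆ 𝒰 \ W n ∧
      ⋃₀ T (𝒰 \ W n) = ⋃₀ (𝒰 \ W n) := fun n => hT _ sdiff_subset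
  have hWsub : ∀ n, W n ⊆ 𝒰 := by
    intro n
    induction n with
    | zero => rw [hW0]; exact empty_subset _
    | succ n ih => rw [hWs]; exact union_subset ih ((hT' n).2.1.trans sdiff_subset)
  have hWc : ∀ n, (W n).Countable := by
    intro n
    induction n with
    | zero => rw [hW0]; exact countable_empty
    | succ n ih => rw [hWs]; exact ih.union (hT' n).1
  have hmono : Monotone W := monotone_nat_of_le_succ (fun n => by rw [hWs]; exact subset_union_left)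
  refine ⟨⋃ n, W n, iUnion_subset hWsub, countable_iUnion hWc, ?_, ?_, ?_⟩
  · intro U hU
    exact hopen U (iUnion_subset hWsub hU)
  · intro h
    exact huniv (iUnion_subset hWsub h)
  · intro z hfin
    have hex : ∃ n, {U ∈ ⋃ n, W n | z ∈ U} ⊆ W n := by
      refine finite_subset_of_mono hmono hfin ?_
      rintro U ⟨hU, -⟩
      exact hU
    obtain ⟨n, hn⟩ := hex
    apply hinf z
    refine hfin.subset ?_
    rintro U ⟨hU, hzU⟩
    refine ⟨?_, hzU⟩
    by_contra hcon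
    have hUn : U ∈ 𝒰 \ W n := ⟨hU, fun h => hcon (mem_iUnion.2 ⟨n, h⟩)⟩
    have hz : z ∈ ⋃₀ (𝒰 \ W n) := ⟨U, hUn, hzU⟩
    rw [← (hT' n).2.2] at hz
    obtain ⟨V, hV, hzV⟩ := hz
    have hV1 : V ∈ W (n + 1) := by rw [hWs]; exact Or.inr hV
    have : V ∈ W n := hn ⟨mem_iUnion.2 ⟨n + 1, hV1⟩, hzV⟩
    exact ((hT' n).2.1 hV).2 this


/-- Reformulation of the failure of the Menger property by increasing open covers. -/
theorem exists_grid_of_not_menger {Y : Type*} [TopologicalSpace Y] [SecondCountableTopology Y]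
    (hY : ¬ Menger Y) :
    ∃ F : ℕ → ℕ → Set Y, (∀ a m, IsOpen (F a m)) ∧ (∀ a, Monotone (F a)) ∧
      (∀ a y, ∃ m, y ∈ F a m) ∧ ∀ g : ℕ → ℕ, ∃ y, ∀ a, y ∉ F a (g a) := by
  classical
  unfold Menger at hY
  push Not at hY
  obtain ⟨𝒰, h𝒰, hno⟩ := hY
  have h1 : ∀ n, ∃ T : Set (Set Y), T.Countable ∧ T ⊆ 𝒰 n ∧ ⋃₀ T = ⋃₀ 𝒰 n := fun n =>
    TopologicalSpace.isOpen_sUnion_countable (𝒰 n) (h𝒰 n).1
  choose T hTc hTs hTu using h1
  have h2 : ∀ n, ∃ f : Set Y → ℕ, InjOn f (T n) := fun n =>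
    Set.countable_iff_exists_injOn.1 (hTc n)
  choose f hf using h2
  have hfin : ∀ n m, {U ∈ T n | f n U ≤ m}.Finite := by
    intro n m
    refine Set.Finite.of_finite_image (f := f n) ((Set.finite_Iic m).subset ?_)
      ((hf n).mono (fun U hU => hU.1))
    rintro _ ⟨U, hU, rfl⟩
    exact hU.2
  refine ⟨fun n m => ⋃₀ {U ∈ T n | f n U ≤ m}, ?_, ?_, ?_, ?_⟩
  · intro a m
    exact isOpen_sUnion (fun U hU => (h𝒰 a).1 U (hTs a hU.1))
  · intro a m m' hmm' 
    exact sUnion_subset_sUnion (fun U hU => ⟨hU.1, hU.2.trans hmm'⟩)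
  · intro a y
    have hy : y ∈ ⋃₀ T a := by rw [hTu a, (h𝒰 a).2]; exact mem_univ y
    obtain ⟨U, hU, hyU⟩ := hy
    exact ⟨f a U, U, ⟨hU, le_rfl⟩, hyU⟩
  · intro g
    have := hno (fun n => {U ∈ T n | f n U ≤ g n})
      (fun n => ⟨fun U hU => hTs n hU.1, hfin n (g n)⟩)
    rw [Set.ne_univ_iff_exists_notMem] at this
    obtain ⟨y, hy⟩ := this
    refine ⟨y, fun a ha => hy (mem_iUnion.2 ⟨a, ha⟩)⟩

/-- If `Y` is not Menger, then the product of the Cantor space with `Y` has a large open cover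
which cannot be split. -/
theorem not_split_of_not_menger {Y : Type*} [TopologicalSpace Y] [SecondCountableTopology Y]
    (hY : ¬ Menger Y) : ¬ SplitLL ((ℕ → Bool) × Y) := by
  classical
  obtain ⟨F, hFo, hFm, hFc, hFn⟩ := exists_grid_of_not_menger hY
  let G : ℕ → Set ((ℕ → Bool) × Y) := fun k =>
    {p | ∃ a m, a ≤ k ∧ k < m ∧ a + 2 ≤ m ∧ p.2 ∈ F a m ∧
      (p.1 k = true ∨ ∀ j, a ≤ j → j < m → p.1 j = false)}
  have hGmem : ∀ k p, p ∈ G k ↔ ∃ a m, a ≤ k ∧ k < m ∧ a + 2 ≤ m ∧ p.2 ∈ F a m ∧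
      (p.1 k = true ∨ ∀ j, a ≤ j → j < m → p.1 j = false) := fun k p => Iff.rfl
  have hcoord : ∀ (k : ℕ) (b : Bool), IsOpen {p : (ℕ → Bool) × Y | p.1 k = b} := by
    intro k b
    have hc : Continuous (fun p : (ℕ → Bool) × Y => p.1 k) := by fun_prop
    exact (isOpen_discrete ({b} : Set Bool)).preimage hc
  have hGo : ∀ k, IsOpen (G k) := by
    intro k
    have : G k = ⋃ a, ⋃ m, ⋃ (_ : a ≤ k ∧ k < m ∧ a + 2 ≤ m), ({p | p.2 ∈ F a m} ∩
        ({p | p.1 k = true} ∪ ⋂ j ∈ Finset.Ico a m, {p | p.1 j = false})) := by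
      ext p
      simp only [hGmem, mem_iUnion, mem_inter_iff, mem_union, mem_ofPred_eq, mem_iInter,
        Finset.mem_Ico, exists_prop, and_assoc, and_imp]
    rw [this]
    refine isOpen_iUnion fun a => isOpen_iUnion fun m => isOpen_iUnion fun _ => ?_
    refine ((hFo a m).preimage continuous_snd).inter ((hcoord k true).union ?_)
    exact isOpen_biInter_finset (fun j _ => hcoord j false)
  -- a point outside `G l` but in every other `G k`
  have hy0 : ∃ y : Y, True := by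
    obtain ⟨y, _⟩ := hFn (fun _ => 0)
    exact ⟨y, trivial⟩
  obtain ⟨y0, -⟩ := hy0
  have hpt : ∀ l, ((fun j => decide (j ≠ l)), y0) ∉ G l := by
    intro l hl
    obtain ⟨a, m, h1, h2, h3, _, h5⟩ := (hGmem _ _).1 hl
    rcases h5 with h5 | h5
    · simp at h5
    · have ha := h5 a le_rfl (by omega)
      have ha1 := h5 (a + 1) (by omega) (by omega)
      simp at ha ha1
      omega
  have hpt' : ∀ l k, k ≠ l → ((fun j => decide (j ≠ l)), y0) ∈ G k := by
    intro l k hkl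
    obtain ⟨m, hm⟩ := hFc k y0
    refine (hGmem _ _).2 ⟨k, max m (k + 2), le_rfl, by omega, by omega,
      hFm k (le_max_left _ _) hm, Or.inl (by simp [hkl])⟩
  have hGinj : Function.Injective G := by
    intro k l hkl
    by_contra hne
    exact hpt l (hkl ▸ hpt' l k hne)
  have hlarge : IsLargeCover (Set.range G) := by
    refine ⟨?_, ?_, ?_⟩
    · rintro _ ⟨k, rfl⟩
      exact hGo k
    · rintro ⟨k, hk⟩
      exact hpt k (hk ▸ mem_univ _)
    · rintro ⟨x, y⟩
      have hinf : {k | (x, y) ∈ G k}.Infinite := by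
        rw [Set.infinite_iff_exists_gt]
        intro n
        obtain ⟨m, hm⟩ := hFc (n + 1) y
        have hm' : y ∈ F (n + 1) (max m (n + 3)) := hFm _ (le_max_left _ _) hm
        by_cases hx : ∃ j, n + 1 ≤ j ∧ j < max m (n + 3) ∧ x j = true
        · obtain ⟨j, hj1, hj2, hj3⟩ := hx
          exact ⟨j, (hGmem _ _).2 ⟨n + 1, _, hj1, hj2, by omega, hm', Or.inl hj3⟩, by omega⟩
        · push Not at hx
          refine ⟨n + 1, (hGmem _ _).2 ⟨n + 1, _, le_rfl, by omega, by omega, hm', Or.inr ?_⟩,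
            by omega⟩
          intro j hj1 hj2
          simpa using hx j hj1 hj2
      have h2 : (G '' {k | (x, y) ∈ G k}).Infinite := hinf.image hGinj.injOn
      refine h2.mono ?_
      rintro _ ⟨k, hk, rfl⟩
      exact ⟨⟨k, rfl⟩, hk⟩
  intro hsplit
  obtain ⟨𝒱, 𝒲, hun, hdisj, hV, hW⟩ := hsplit _ hlarge
  -- a subfamily of `G` that covers has only finitely many missing indices
  have key : ∀ A : Set ℕ, (Aᶜ).Infinite → ∃ p, ∀ k ∈ A, p ∉ G k := by
    intro A hA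
    have h1 : ∀ a, ∃ b, a ≤ b ∧ b ∉ A := by
      intro a
      obtain ⟨b, hb, hab⟩ := (Set.infinite_iff_exists_gt.1 hA) a
      exact ⟨b, hab.le, hb⟩
    choose g hg1 hg2 using h1
    obtain ⟨y, hy⟩ := hFn g
    refine ⟨(fun j => decide (j ∉ A), y), ?_⟩
    intro k hkA hk
    obtain ⟨a, m, h1, h2, h3, h4, h5⟩ := (hGmem _ _).1 hk
    have hgm : g a < m := by
      by_contra hcon
      exact hy a (hFm a (not_lt.1 hcon) h4)
    rcases h5 with h5 | h5
    · simp at h5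
      exact h5 hkA
    · have := h5 (g a) (hg1 a) hgm
      simp at this
      exact hg2 a this
  have hcov : ∀ 𝒮 : Set (Set ((ℕ → Bool) × Y)), 𝒮 ⊆ Set.range G → IsLargeCover 𝒮 →
      ({k | G k ∈ 𝒮}ᶜ).Finite := by
    intro 𝒮 hsub hS
    by_contra hcon
    obtain ⟨p, hp⟩ := key {k | G k ∈ 𝒮} hcon
    obtain ⟨U, hU⟩ := (hS.2.2 p).nonempty
    obtain ⟨k, rfl⟩ := hsub hU.1
    exact hp k hU.1 hU.2
  have hfV := hcov 𝒱 (hun ▸ subset_union_left) hV
  have hfW := hcov 𝒲 (hun ▸ subset_union_right) hW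
  have huniv : ({k | G k ∈ 𝒱}ᶜ ∪ {k | G k ∈ 𝒲}ᶜ : Set ℕ) = Set.univ := by
    rw [← Set.compl_inter, Set.compl_univ_iff]
    ext k
    simp only [mem_inter_iff, mem_ofPred_eq, mem_empty_iff_false, iff_false, not_and]
    intro h1 h2
    exact (Set.disjoint_left.1 hdisj) h1 h2
  have := hfV.union hfW
  rw [huniv] at this
  exact Set.infinite_univ this


/-- Strong recursion in existential form. -/
theorem exists_strong_seq {α : Type*} [Nonempty α] (P : ℕ → (ℕ → α) → α → Prop)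
    (h : ∀ n f, ∃ x, P n f x) (hloc : ∀ n f f' x, (∀ m < n, f m = f' m) → P n f x → P n f' x) :
    ∃ f : ℕ → α, ∀ n, P n f (f n) := by
  classical
  have hinh : Inhabited α := Classical.inhabited_of_nonempty ‹_›
  let F : ∀ n : ℕ, (∀ m, m < n → α) → α := fun n ih =>
    Classical.choose (h n (fun m => if hm : m < n then ih m hm else default))
  let f : ℕ → α := fun n => Nat.lt_wfRel.wf.fix F n
  have hf : ∀ n, f n = F n (fun m _ => f m) := fun n => Nat.lt_wfRel.wf.fix_eq F n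
  refine ⟨f, fun n => ?_⟩
  have h1 := Classical.choose_spec (h n (fun m => if hm : m < n then f m else default))
  have h2 : f n = Classical.choose (h n (fun m => if hm : m < n then f m else default)) := hf n
  rw [← h2] at h1
  refine hloc n _ _ _ ?_ h1
  intro m hm
  simp [hm]

/-- Countably many infinite sets of naturals can be split simultaneously. -/
theorem exists_split_countable {ι : Type*} [Countable ι] (A : ι → Set ℕ)
    (hA : ∀ i, (A i).Infinite) :
    ∃ B : Set ℕ, ∀ i, (A i ∩ B).Infinite ∧ (A i \ B).Infinite := by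
  classical
  rcases isEmpty_or_nonempty ι with hι | hι
  · exact ⟨∅, fun i => (hι.false i).elim⟩
  obtain ⟨e, he⟩ := exists_surjective_nat ι
  have hnx : ∀ (i : ι) (N : ℕ), ∃ n ∈ A i, N < n := fun i N =>
    (Set.infinite_iff_exists_gt.1 (hA i)) N
  choose nx hnx1 hnx2 using hnx
  let idx : ℕ → ι := fun m => e (Nat.unpair (m / 2)).1
  let n : ℕ → ℕ := fun m => Nat.rec (nx (idx 0) 0) (fun m r => nx (idx (m + 1)) r) m
  have hn : ∀ m, n m ∈ A (idx m) := by
    intro m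
    cases m with
    | zero => exact hnx1 _ _
    | succ m => exact hnx1 _ _
  have hmono : StrictMono n := strictMono_nat_of_lt_succ (fun m => hnx2 _ _)
  refine ⟨Set.range (fun k => n (2 * k)), fun i => ?_⟩
  obtain ⟨t, rfl⟩ := he i
  constructor
  · have h1 : (Set.range (fun s => n (2 * Nat.pair t s))).Infinite := by
      apply Set.infinite_range_of_injective
      intro s s' hss
      have := hmono.injective hss
      have h2 : Nat.pair t s = Nat.pair t s' := by omega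
      exact (Nat.pair_eq_pair.1 h2).2
    refine h1.mono ?_
    rintro _ ⟨s, rfl⟩
    refine ⟨?_, ⟨Nat.pair t s, rfl⟩⟩
    have := hn (2 * Nat.pair t s)
    simpa [idx] using this
  · have h1 : (Set.range (fun s => n (2 * Nat.pair t s + 1))).Infinite := by
      apply Set.infinite_range_of_injective
      intro s s' hss
      have h5 : 2 * Nat.pair t s + 1 = 2 * Nat.pair t s' + 1 := hmono.injective hss
      have h2 : Nat.pair t s = Nat.pair t s' := by omega
      exact (Nat.pair_eq_pair.1 h2).2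
    refine h1.mono ?_
    rintro _ ⟨s, rfl⟩
    refine ⟨?_, ?_⟩
    · have := hn (2 * Nat.pair t s + 1)
      have h3 : (2 * Nat.pair t s + 1) / 2 = Nat.pair t s := by omega
      simpa [idx, h3] using this
    · rintro ⟨k, hk⟩
      have h5 : 2 * k = 2 * Nat.pair t s + 1 := hmono.injective hk
      omega

/-- Split(Λ,Λ) for indexed families. -/
theorem exists_indexed_split {Y : Type*} [TopologicalSpace Y] [T1Space Y] (hS : SplitLL Y)
    (V : ℕ → Set Y) (hV : ∀ i, IsOpen (V i)) (hinf : ∀ y, {i | y ∈ V i}.Infinite) :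
    ∃ B : Set ℕ, ∀ y, {i | i ∈ B ∧ y ∈ V i}.Infinite ∧ {i | i ∉ B ∧ y ∈ V i}.Infinite := by
  classical
  rcases isEmpty_or_nonempty Y with hemp | hne
  · exact ⟨∅, fun y => (hemp.false y).elim⟩
  let Fn : Set ℕ := {i | (V i).Finite}
  let Y1 : Set Y := {y | {i | i ∈ Fn ∧ y ∈ V i}.Infinite}
  have hY1c : Y1.Countable := by
    refine (Set.countable_iUnion (fun i => Set.countable_iUnion (fun (h : i ∈ Fn) =>
      (show (V i).Countable from Set.Finite.countable h)))).mono ?_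
    intro y hy
    obtain ⟨i, hi, hyi⟩ := (Set.Infinite.nonempty hy)
    exact mem_iUnion.2 ⟨i, mem_iUnion.2 ⟨hi, hyi⟩⟩
  have hY1o : IsOpen Y1 := by
    have : Y1 = ⋃ y ∈ Y1, {y} := by simp
    rw [this]
    refine isOpen_biUnion fun y hy => ?_
    obtain ⟨i, hi, hyi⟩ := (Set.Infinite.nonempty hy)
    have h1 : (V i \ {y}).Finite := Set.Finite.subset hi sdiff_subset
    have h2 : ({y} : Set Y) = V i \ (V i \ {y}) := by
      ext z
      simp only [mem_singleton_iff, mem_sdiff]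
      constructor
      · rintro rfl
        exact ⟨hyi, fun h => h.2 rfl⟩
      · rintro ⟨h3, h4⟩
        by_contra h5
        exact h4 ⟨h3, h5⟩
    rw [h2]
    exact (hV i).sdiff h1.isClosed
  have : Countable Y1 := hY1c.to_subtype
  obtain ⟨B1, hB1⟩ := exists_split_countable (fun y : Y1 => {i | i ∈ Fn ∧ (y : Y) ∈ V i})
    (fun y => y.2)
  by_cases hfin : (Fnᶜ).Finite
  · refine ⟨B1, fun y => ?_⟩
    have hy : y ∈ Y1 := by
      intro hcon
      apply hinf y
      refine (hcon.union hfin).subset ?_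
      intro i hi
      by_cases hiF : i ∈ Fn
      · exact Or.inl ⟨hiF, hi⟩
      · exact Or.inr hiF
    obtain ⟨h1, h2⟩ := hB1 ⟨y, hy⟩
    exact ⟨h1.mono (fun i hi => ⟨hi.2, hi.1.2⟩), h2.mono (fun i hi => ⟨hi.2, hi.1.2⟩)⟩
  · -- choose points to delete
    have hfin' : (Fnᶜ).Infinite := hfin
    obtain ⟨p, hp⟩ := exists_strong_seq (α := Y)
      (fun j f x => j ∉ Fn → (x ∈ V j ∧ ∀ i < j, i ∉ Fn → x ≠ f i ∧
        (V j ∪ Y1) \ {x} ≠ (V i ∪ Y1) \ {f i})) (by
        intro j f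
        by_cases hj : j ∈ Fn
        · exact ⟨Classical.arbitrary Y, fun h => absurd hj h⟩
        have hbad : (⋃ i ∈ Finset.range j, ({f i} ∪
            {x | x ∈ V j ∧ (V j ∪ Y1) \ {x} = (V i ∪ Y1) \ {f i}})).Finite := by
          refine Set.Finite.biUnion (Finset.finite_toSet _) (fun i _ => ?_)
          refine (Set.finite_singleton _).union ?_
          refine Set.Subsingleton.finite ?_
          rintro x ⟨hx1, hx2⟩ x' ⟨hx1', hx2'⟩
          by_contra hne
          have h1 : x ∈ (V j ∪ Y1) \ {x'} := ⟨Or.inl hx1, hne⟩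
          rw [hx2', ← hx2] at h1
          exact h1.2 rfl
        obtain ⟨x, hx, hx'⟩ := (Set.Infinite.sdiff (s := V j) hj hbad).nonempty
        refine ⟨x, fun _ => ⟨hx, fun i hi _ => ⟨?_, ?_⟩⟩⟩
        · rintro rfl
          exact hx' (mem_biUnion (Finset.mem_coe.2 (Finset.mem_range.2 hi)) (Or.inl rfl))
        · intro hcon
          exact hx' (mem_biUnion (Finset.mem_coe.2 (Finset.mem_range.2 hi)) (Or.inr ⟨hx, hcon⟩)))
      (by
        intro n f f' x hff h hn
        refine ⟨(h hn).1, fun i hi hiF => ?_⟩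
        have := (h hn).2 i hi hiF
        rw [hff i hi] at this
        exact this)
    let V' : ℕ → Set Y := fun j => (V j ∪ Y1) \ {p j}
    have hV'o : ∀ j, IsOpen (V' j) := fun j => ((hV j).union hY1o).sdiff isClosed_singleton
    have hV'inj : Set.InjOn V' Fnᶜ := by
      intro i hi j hj hij
      by_contra hne
      rcases lt_or_gt_of_ne hne with h | h
      · exact ((hp j hj).2 i h hi).2 hij.symm
      · exact ((hp i hi).2 j h hj).2 hij
    have hpinj : Set.InjOn p Fnᶜ := by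
      intro i hi j hj hij
      by_contra hne
      rcases lt_or_gt_of_ne hne with h | h
      · exact ((hp j hj).2 i h hi).1 hij.symm
      · exact ((hp i hi).2 j h hj).1 hij
    have hdel : ∀ y, {j | j ∈ Fnᶜ ∧ p j = y}.Finite := by
      intro y
      refine Set.Subsingleton.finite ?_
      rintro i ⟨hi, hiy⟩ j ⟨hj, hjy⟩
      exact hpinj hi hj (hiy.trans hjy.symm)
    have hlarge : IsLargeCover (V' '' Fnᶜ) := by
      refine ⟨?_, ?_, ?_⟩
      · rintro _ ⟨j, _, rfl⟩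
        exact hV'o j
      · rintro ⟨j, _, hj⟩
        have : p j ∈ V' j := hj ▸ mem_univ _
        exact this.2 rfl
      · intro y
        have h1 : {j | j ∈ Fnᶜ ∧ y ∈ V' j}.Infinite := by
          by_cases hy : y ∈ Y1
          · refine (Set.Infinite.sdiff hfin' (hdel y)).mono ?_
            rintro j ⟨hj1, hj2⟩
            exact ⟨hj1, Or.inr hy, fun h => hj2 ⟨hj1, h.symm⟩⟩
          · have h2 : {i | i ∈ Fn ∧ y ∈ V i}.Finite := Set.not_infinite.1 hy
            refine (Set.Infinite.sdiff (hinf y) (h2.union (hdel y))).mono ?_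
            rintro j ⟨hj1, hj2⟩
            have hjF : j ∉ Fn := fun h => hj2 (Or.inl ⟨h, hj1⟩)
            exact ⟨hjF, Or.inl hj1, fun h => hj2 (Or.inr ⟨hjF, h.symm⟩)⟩
        have h3 := h1.image (hV'inj.mono (fun j hj => hj.1))
        refine h3.mono ?_
        rintro _ ⟨j, ⟨hj1, hj2⟩, rfl⟩
        exact ⟨⟨j, hj1, rfl⟩, hj2⟩
    obtain ⟨𝒱, 𝒲, hun, hdisj, h𝒱, h𝒲⟩ := hS _ hlarge
    refine ⟨{i | (i ∈ Fn ∧ i ∈ B1) ∨ (i ∉ Fn ∧ V' i ∈ 𝒱)}, fun y => ?_⟩
    by_cases hy : y ∈ Y1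
    · obtain ⟨h1, h2⟩ := hB1 ⟨y, hy⟩
      refine ⟨h1.mono ?_, h2.mono ?_⟩
      · rintro i ⟨⟨hi1, hi2⟩, hi3⟩
        exact ⟨Or.inl ⟨hi1, hi3⟩, hi2⟩
      · rintro i ⟨⟨hi1, hi2⟩, hi3⟩
        refine ⟨?_, hi2⟩
        rintro (h | h)
        · exact hi3 h.2
        · exact h.1 hi1
    · constructor
      · have h1 := h𝒱.2.2 y
        have h2 : {U | U ∈ 𝒱 ∧ y ∈ U} ⊆ V' ''
            {i | i ∈ {i | (i ∈ Fn ∧ i ∈ B1) ∨ (i ∉ Fn ∧ V' i ∈ 𝒱)} ∧ y ∈ V i} := by
          rintro U ⟨hU, hyU⟩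
          obtain ⟨j, hj, rfl⟩ : U ∈ V' '' Fnᶜ := hun ▸ Or.inl hU
          exact ⟨j, ⟨Or.inr ⟨hj, hU⟩, hyU.1.resolve_right hy⟩, rfl⟩
        exact Set.Infinite.of_image V' (h1.mono h2)
      · have h1 := h𝒲.2.2 y
        have h2 : {U | U ∈ 𝒲 ∧ y ∈ U} ⊆ V' ''
            {i | i ∉ {i | (i ∈ Fn ∧ i ∈ B1) ∨ (i ∉ Fn ∧ V' i ∈ 𝒱)} ∧ y ∈ V i} := by
          rintro U ⟨hU, hyU⟩
          obtain ⟨j, hj, rfl⟩ : U ∈ V' '' Fnᶜ := hun ▸ Or.inr hU
          refine ⟨j, ⟨?_, hyU.1.resolve_right hy⟩, rfl⟩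
          rintro (h | h)
          · exact hj h.1
          · exact (Set.disjoint_left.1 hdisj) h.2 hU
        exact Set.Infinite.of_image V' (h1.mono h2)


/-- The Menger property, for a sequence of increasing open covers. -/
theorem menger_increasing {Y : Type*} [TopologicalSpace Y] (hM : Menger Y) (V : ℕ → ℕ → Set Y)
    (hVo : ∀ m k, IsOpen (V m k)) (hmono : ∀ m, Monotone (V m)) (hcov : ∀ m y, ∃ k, y ∈ V m k) :
    ∃ g : ℕ → ℕ, ∀ y s, ∃ m, s ≤ m ∧ y ∈ V m (g m) := by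
  classical
  have h1 : ∀ s, ∃ g : ℕ → ℕ, ∀ y, ∃ n, y ∈ V (s + n) (g n) := by
    intro s
    obtain ⟨ℱ, hF1, hF2⟩ := hM (fun n => Set.range (V (s + n))) (by
      intro n
      refine ⟨?_, ?_⟩
      · rintro _ ⟨k, rfl⟩
        exact hVo _ _
      · rw [Set.eq_univ_iff_forall]
        intro y
        obtain ⟨k, hk⟩ := hcov (s + n) y
        exact ⟨_, ⟨k, rfl⟩, hk⟩)
    have h2 : ∀ n, ∃ k, ∀ U ∈ ℱ n, U ⊆ V (s + n) k := by
      intro n
      obtain ⟨hsub, hfin⟩ := hF1 n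
      have h3 : ∀ U ∈ ℱ n, ∃ k, U ⊆ V (s + n) k := by
        intro U hU
        obtain ⟨k, rfl⟩ := hsub hU
        exact ⟨k, Subset.rfl⟩
      choose! kk hkk using h3
      obtain ⟨K, hK⟩ := (hfin.image kk).bddAbove
      refine ⟨K, fun U hU => (hkk U hU).trans (hmono _ (hK (mem_image_of_mem _ hU)))⟩
    choose g hg using h2
    refine ⟨g, fun y => ?_⟩
    have hy : y ∈ ⋃ n, ⋃₀ ℱ n := by rw [hF2]; exact mem_univ y
    obtain ⟨n, U, hU, hyU⟩ := mem_iUnion.1 hy
    exact ⟨n, hg n U hU hyU⟩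
  choose g hg using h1
  refine ⟨fun m => (Finset.range (m + 1)).sup (fun s => g s (m - s)), fun y s => ?_⟩
  obtain ⟨n, hn⟩ := hg s y
  refine ⟨s + n, Nat.le_add_right _ _, hmono _ ?_ hn⟩
  have h3 : g s (s + n - s) ≤ (Finset.range (s + n + 1)).sup (fun t => g t (s + n - t)) :=
    Finset.le_sup (f := fun t => g t (s + n - t)) (Finset.mem_range.2 (by omega))
  simpa using h3

/-- In a Menger space one finds a partition into intervals each point being captured by
infinitely many of them. -/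
theorem exists_intervals {Y : Type*} [TopologicalSpace Y] (hM : Menger Y) (W : ℕ → ℕ → Set Y)
    (hWo : ∀ m k, IsOpen (W m k)) (hmono : ∀ m, Monotone (W m))
    (hanti : ∀ k, Antitone (fun m => W m k)) (hcov : ∀ m y, ∃ k, y ∈ W m k) :
    ∃ a : ℕ → ℕ, StrictMono a ∧ ∀ y, {i | y ∈ W (a i) (a (i + 1))}.Infinite := by
  classical
  obtain ⟨g, hg⟩ := menger_increasing hM (fun m k => ⋃ j ∈ Finset.range (k + 1), (W m j ∩ W j k))
    (fun m k => isOpen_biUnion fun j _ => (hWo m j).inter (hWo j k))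
    (by
      intro m k k' hkk' y hy
      simp only [mem_iUnion, Finset.mem_range, mem_inter_iff, exists_prop] at hy ⊢
      obtain ⟨j, hj, h1, h2⟩ := hy
      exact ⟨j, by omega, h1, hmono j hkk' h2⟩)
    (by
      intro m y
      obtain ⟨j, hj⟩ := hcov m y
      obtain ⟨k, hk⟩ := hcov j y
      refine ⟨max j k, ?_⟩
      simp only [mem_iUnion, Finset.mem_range, mem_inter_iff, exists_prop]
      exact ⟨j, by omega, hj, hmono j (le_max_right _ _) hk⟩)
  let g' : ℕ → ℕ := fun m => (Finset.range (m + 1)).sup g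
  have hg'1 : ∀ m, g m ≤ g' m := fun m => Finset.le_sup (Finset.mem_range.2 (Nat.lt_succ_self m))
  have hg'2 : Monotone g' := fun m m' h => Finset.sup_mono (Finset.range_mono (by omega))
  obtain ⟨a, ha0, ha⟩ : ∃ a : ℕ → ℕ, a 0 = 0 ∧ ∀ i, a (i + 1) = max (a i + 1) (g' (a i)) :=
    ⟨fun i => Nat.rec 0 (fun _ r => max (r + 1) (g' r)) i, rfl, fun i => rfl⟩
  have hamono : StrictMono a := strictMono_nat_of_lt_succ (fun i => by rw [ha]; omega)
  refine ⟨a, hamono, fun y => ?_⟩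
  rw [Set.infinite_iff_exists_gt]
  intro N
  obtain ⟨m, hm, hym⟩ := hg y (a (N + 1))
  simp only [mem_iUnion, Finset.mem_range, mem_inter_iff, exists_prop] at hym
  obtain ⟨j, hj, h1, h2⟩ := hym
  -- locate `m`
  obtain ⟨i, hi1, hi2, hi3⟩ : ∃ i, N < i ∧ a i ≤ m ∧ m < a (i + 1) := by
    have hex : ∃ i, m < a (i + 1) := ⟨m, lt_of_lt_of_le (Nat.lt_succ_self m) (hamono.id_le (m + 1))⟩
    refine ⟨Nat.find hex, ?_, ?_, Nat.find_spec hex⟩
    · by_contra hcon
      have h3 : a (Nat.find hex + 1) ≤ a (N + 1) := hamono.monotone (by omega)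
      have h4 := Nat.find_spec hex
      omega
    · rcases Nat.eq_zero_or_pos (Nat.find hex) with h0 | h0
      · rw [h0, ha0]
        exact Nat.zero_le _
      · obtain ⟨t, ht⟩ : ∃ t, Nat.find hex = t + 1 := ⟨Nat.find hex - 1, by omega⟩
        have := Nat.find_min hex (m := t) (by omega)
        rw [ht]
        omega
  have hgm : g m ≤ a (i + 2) := by
    calc g m ≤ g' m := hg'1 m
      _ ≤ g' (a (i + 1)) := hg'2 hi3.le
      _ ≤ a (i + 2) := by rw [ha (i + 1)]; exact le_max_right _ _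
  rcases le_or_gt j (a (i + 1)) with hja | hja
  · exact ⟨i, hanti _ hi2 (hmono m hja h1), hi1⟩
  · exact ⟨i + 1, hanti _ hja.le (hmono j hgm h2), by omega⟩

/-- Positive part: products of a compact metrizable space with a Menger space with
Split(Λ,Λ). -/
theorem split_prod_of_menger {X Y : Type*} [TopologicalSpace X] [TopologicalSpace Y]
    [CompactSpace X] [SecondCountableTopology X] [SecondCountableTopology Y] [T1Space Y]
    (hM : Menger Y) (hS : SplitLL Y) : SplitLL (X × Y) := by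
  classical
  intro 𝒰 h𝒰
  rcases isEmpty_or_nonempty (X × Y) with hemp | ⟨⟨x0, y0⟩⟩
  · refine ⟨𝒰, ∅, by simp, by simp, h𝒰, ?_, ?_, fun z => (hemp.false z).elim⟩
    · simp
    · simp
  obtain ⟨𝒰', hsub, hcount, hlarge⟩ := exists_countable_large h𝒰
  have hinf : 𝒰'.Infinite := (hlarge.2.2 (x0, y0)).mono (fun U hU => hU.1)
  obtain ⟨U, hUinj, hUr⟩ : ∃ U : ℕ → Set (X × Y), Function.Injective U ∧ Set.range U = 𝒰' := by
    have : Infinite 𝒰' := hinf.to_subtype
    have : Countable 𝒰' := hcount.to_subtype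
    obtain ⟨e⟩ := nonempty_equiv_of_countable (α := ℕ) (β := 𝒰')
    refine ⟨fun n => (e n : Set (X × Y)), fun n m h => e.injective (Subtype.ext h), ?_⟩
    ext V
    constructor
    · rintro ⟨n, rfl⟩
      exact (e n).2
    · intro hV
      exact ⟨e.symm ⟨V, hV⟩, by simp⟩
  have hUo : ∀ n, IsOpen (U n) := fun n => hlarge.1 _ (hUr ▸ ⟨n, rfl⟩)
  have hUinf : ∀ z, {n | z ∈ U n}.Infinite := by
    intro z
    refine Set.Infinite.of_image U ((hlarge.2.2 z).mono ?_)
    rintro V ⟨hV, hz⟩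
    obtain ⟨n, rfl⟩ : V ∈ Set.range U := hUr ▸ hV
    exact ⟨n, hz, rfl⟩
  let W : ℕ → ℕ → Set Y := fun m k => {y | ∀ x : X, ∃ n, m ≤ n ∧ n < k ∧ (x, y) ∈ U n}
  have hWo : ∀ m k, IsOpen (W m k) := by
    intro m k
    have h1 : IsOpen (⋃ n ∈ Finset.Ico m k, U n) := isOpen_biUnion fun n _ => hUo n
    have h2 : (W m k)ᶜ = Prod.snd '' (⋃ n ∈ Finset.Ico m k, U n)ᶜ := by
      ext y
      simp only [W, mem_compl_iff, mem_ofPred_eq, mem_image, mem_iUnion, Finset.mem_Ico,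
        exists_prop, Prod.exists, not_forall]
      constructor
      · rintro ⟨x, hx⟩
        refine ⟨x, y, ?_, rfl⟩
        rintro ⟨n, hn1, hn2⟩
        exact hx ⟨n, hn1.1, hn1.2, hn2⟩
      · rintro ⟨x, y', h, rfl⟩
        refine ⟨x, ?_⟩
        rintro ⟨n, hn1, hn2, hn3⟩
        exact h ⟨n, ⟨hn1, hn2⟩, hn3⟩
    rw [← isClosed_compl_iff, h2]
    exact isClosedMap_snd_of_compactSpace _ h1.isClosed_compl
  have hmono : ∀ m, Monotone (W m) := by
    intro m k k' hkk' y hy x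
    obtain ⟨n, h1, h2, h3⟩ := hy x
    exact ⟨n, h1, lt_of_lt_of_le h2 hkk', h3⟩
  have hanti : ∀ k, Antitone (fun m => W m k) := by
    intro k m m' hmm' y hy x
    obtain ⟨n, h1, h2, h3⟩ := hy x
    exact ⟨n, hmm'.trans h1, h2, h3⟩
  have hcov : ∀ m y, ∃ k, y ∈ W m k := by
    intro m y
    have hopen : ∀ k : ℕ, IsOpen {x : X | ∃ n, m ≤ n ∧ n < k ∧ (x, y) ∈ U n} := by
      intro k
      have : {x : X | ∃ n, m ≤ n ∧ n < k ∧ (x, y) ∈ U n} =
          ⋃ n ∈ Finset.Ico m k, (fun x => (x, y)) ⁻¹' U n := by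
        ext x
        simp [and_assoc]
      rw [this]
      exact isOpen_biUnion fun n _ => (hUo n).preimage (by fun_prop)
    obtain ⟨k, hk⟩ := isCompact_univ.elim_directed_cover
      (fun k : ℕ => {x : X | ∃ n, m ≤ n ∧ n < k ∧ (x, y) ∈ U n}) hopen (by
        intro x _
        obtain ⟨n, hn, hmn⟩ := (Set.infinite_iff_exists_gt.1 (hUinf (x, y))) m
        exact mem_iUnion.2 ⟨n + 1, n, hmn.le, Nat.lt_succ_self n, hn⟩) (by
        intro k k'
        refine ⟨max k k', ?_, ?_⟩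
        · rintro x ⟨n, h1, h2, h3⟩
          exact ⟨n, h1, lt_of_lt_of_le h2 (le_max_left _ _), h3⟩
        · rintro x ⟨n, h1, h2, h3⟩
          exact ⟨n, h1, lt_of_lt_of_le h2 (le_max_right _ _), h3⟩)
    exact ⟨k, fun x => hk (mem_univ x)⟩
  obtain ⟨a, ha, hainf⟩ := exists_intervals hM W hWo hmono hanti hcov
  obtain ⟨B, hB⟩ := exists_indexed_split hS (fun i => W (a i) (a (i + 1))) (fun i => hWo _ _) hainf
  -- the union of the blocks with index in `B`
  let A : Set ℕ := {n | ∃ i ∈ B, a i ≤ n ∧ n < a (i + 1)}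
  have huniq : ∀ i j n, a i ≤ n → n < a (i + 1) → a j ≤ n → n < a (j + 1) → i = j := by
    intro i j n h1 h2 h3 h4
    by_contra hne
    rcases lt_or_gt_of_ne hne with h | h
    · have := ha.monotone (show i + 1 ≤ j from h)
      omega
    · have := ha.monotone (show j + 1 ≤ i from h)
      omega
  have hinfblocks : ∀ (C : Set ℕ) (x : X) (y : Y), {i | i ∈ C ∧ y ∈ W (a i) (a (i + 1))}.Infinite →
      {n | (∃ i ∈ C, a i ≤ n ∧ n < a (i + 1)) ∧ (x, y) ∈ U n}.Infinite := by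
    intro C x y hC
    have h1 : ∀ i ∈ {i | i ∈ C ∧ y ∈ W (a i) (a (i + 1))}, ∃ n, a i ≤ n ∧ n < a (i + 1) ∧
        (x, y) ∈ U n := fun i hi => hi.2 x
    choose! f hf using h1
    have h2 : Set.InjOn f {i | i ∈ C ∧ y ∈ W (a i) (a (i + 1))} := by
      intro i hi j hj hij
      exact huniq i j (f i) (hf i hi).1 (hf i hi).2.1 (hij ▸ (hf j hj).1) (hij ▸ (hf j hj).2.1)
    refine (hC.image h2).mono ?_
    rintro _ ⟨i, hi, rfl⟩
    exact ⟨⟨i, hi.1, (hf i hi).1, (hf i hi).2.1⟩, (hf i hi).2.2⟩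
  refine ⟨U '' A, 𝒰 \ (U '' A), ?_, disjoint_sdiff_right, ?_, ?_⟩
  · refine union_sdiff_cancel ?_
    rintro _ ⟨n, _, rfl⟩
    exact hsub (hUr ▸ ⟨n, rfl⟩)
  · refine ⟨?_, ?_, ?_⟩
    · rintro _ ⟨n, _, rfl⟩
      exact hUo n
    · rintro ⟨n, _, hn⟩
      exact hlarge.2.1 (hUr ▸ ⟨n, hn⟩)
    · rintro ⟨x, y⟩
      have h1 := (hinfblocks B x y (hB y).1).image hUinj.injOn
      refine h1.mono ?_
      rintro _ ⟨n, ⟨hn1, hn2⟩, rfl⟩
      exact ⟨⟨n, hn1, rfl⟩, hn2⟩
  · refine ⟨fun V hV => h𝒰.1 V hV.1, fun h => h𝒰.2.1 h.1, ?_⟩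
    rintro ⟨x, y⟩
    have h1 := (hinfblocks Bᶜ x y (hB y).2).image hUinj.injOn
    refine h1.mono ?_
    rintro _ ⟨n, ⟨⟨i, hi, hi1, hi2⟩, hn2⟩, rfl⟩
    refine ⟨⟨hsub (hUr ▸ ⟨n, rfl⟩), ?_⟩, hn2⟩
    rintro ⟨n', ⟨j, hj, hj1, hj2⟩, hnn'⟩
    have := hUinj hnn'
    subst this
    have := huniq i j n' hi1 hi2 hj1 hj2
    subst this
    exact hi hj

/-- Split(Λ,Λ) passes from `X × Y` to `Y` when `X` is nonempty. -/
theorem split_of_split_prod {X Y : Type*} [TopologicalSpace X] [TopologicalSpace Y] [Nonempty X]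
    (h : SplitLL (X × Y)) : SplitLL Y := by
  classical
  intro 𝒰 h𝒰
  let P : Set Y → Set (X × Y) := fun U => Prod.snd ⁻¹' U
  have hPinj : Function.Injective P := Prod.snd_surjective.preimage_injective
  obtain ⟨𝒱, 𝒲, hun, hdisj, h𝒱, h𝒲⟩ := h (P '' 𝒰) (by
    refine ⟨?_, ?_, ?_⟩
    · rintro _ ⟨U, hU, rfl⟩
      exact (h𝒰.1 U hU).preimage continuous_snd
    · rintro ⟨U, hU, hU'⟩
      have : U = Set.univ := hPinj (hU'.trans Set.preimage_univ.symm)
      exact h𝒰.2.1 (this ▸ hU)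
    · rintro ⟨x, y⟩
      refine ((h𝒰.2.2 y).image hPinj.injOn).mono ?_
      rintro _ ⟨U, ⟨hU, hy⟩, rfl⟩
      exact ⟨⟨U, hU, rfl⟩, hy⟩)
  have hback : ∀ 𝒮 : Set (Set (X × Y)), 𝒮 ⊆ P '' 𝒰 → IsLargeCover 𝒮 → IsLargeCover {U | U ∈ 𝒰 ∧ P U ∈ 𝒮} := by
    intro 𝒮 hsub hS
    refine ⟨fun U hU => h𝒰.1 U hU.1, fun hU => h𝒰.2.1 hU.1, fun y => ?_⟩
    obtain ⟨x⟩ := ‹Nonempty X›
    refine Set.Infinite.of_image P ((hS.2.2 (x, y)).mono ?_)
    rintro V ⟨hV, hxy⟩
    obtain ⟨U, hU, rfl⟩ := hsub hV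
    exact ⟨U, ⟨⟨hU, hV⟩, hxy⟩, rfl⟩
  refine ⟨{U | U ∈ 𝒰 ∧ P U ∈ 𝒱}, {U | U ∈ 𝒰 ∧ P U ∈ 𝒲}, ?_, ?_, ?_, ?_⟩
  · ext U
    constructor
    · rintro (h | h)
      · exact h.1
      · exact h.1
    · intro hU
      have : P U ∈ 𝒱 ∪ 𝒲 := hun ▸ ⟨U, hU, rfl⟩
      rcases this with h | h
      · exact Or.inl ⟨hU, h⟩
      · exact Or.inr ⟨hU, h⟩
  · rw [Set.disjoint_left]
    rintro U ⟨_, h1⟩ ⟨_, h2⟩
    exact (Set.disjoint_left.1 hdisj) h1 h2
  · exact hback 𝒱 (hun ▸ subset_union_left) h𝒱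
  · exact hback 𝒲 (hun ▸ subset_union_right) h𝒲

/-- Main theorem: for a separable metrizable space `Y`, all products of `Y` with compact
metrizable spaces satisfy Split(Λ,Λ) if and only if the product of `Y` with the Cantor space
satisfies Split(Λ,Λ), if and only if `Y` satisfies Split(Λ,Λ) and the Menger property. -/
theorem result (Y : Type) [TopologicalSpace Y] [SeparableSpace Y] [MetrizableSpace Y] :
    List.TFAE [
      ∀ (X : Type) [TopologicalSpace X] [CompactSpace X] [MetrizableSpace X], SplitLL (X × Y),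
      SplitLL ((ℕ → Bool) × Y),
      SplitLL Y ∧ Menger Y] := by
  have hY2 : SecondCountableTopology Y := by
    let _ := metrizableSpaceMetric Y
    exact UniformSpace.secondCountable_of_separable Y
  tfae_have 1 → 2 := fun h => h (ℕ → Bool)
  tfae_have 2 → 3 := by
    intro h
    refine ⟨split_of_split_prod h, ?_⟩
    by_contra hM
    exact not_split_of_not_menger hM h
  tfae_have 3 → 1 := by
    rintro ⟨h1, h2⟩ X _ _ _
    have hX2 : SecondCountableTopology X := by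
      let _ := metrizableSpaceMetric X
      exact UniformSpace.secondCountable_of_separable X
    exact split_prod_of_menger h2 h1
  tfae_finish

end Pool.Agent.Results.MP_ef395a_gt.MengerChar
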